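import Pool.Agent.PFE.StmtsE2c

/-! Row OPV of squad PFE (helper94). -/

open scoped BigOperators

noncomputable section

namespace Pool.Agent.PFE.H94

open MulOpposite
open Pool.Agent.PFC (tw)
open Pool.Agent.PFD
open Pool.Agent.PFD.D2

theorem opv (hb : OpbStmt) (hc : OpcStmt) : OpvStmt := by
  intro ℓ _ F V E A _ _ _ _ _ _ _ _ φ NN z T hV hE hf
  obtain ⟨pv, N, fN, x, y, h1, h2, h3, h4, h5, h6, h7⟩ := hb ℓ F V E A φ NN z T hV hE hf
  obtain ⟨Om, fOm, aOm, b, d, g1, g2, g3, g4⟩ := hc F V E A φ NN z T pv h1 h2 h3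
  letI := T.fK
  refine ⟨N, T.K × E, Om, fN, @instFintypeProd T.K E T.fK _, fOm, aOm,
    { j := T.j.comp (CP.iS (D0 φ z))
      pr := pv ∘ₗ T.pr
      pr_j := ?_
      pr_l := ?_
      pr_r := ?_
      mu := T.mu
      mus := T.mus
      mun := T.mun
      orth := ?_
      sep := T.sepV
      x := x
      y := y
      e1 := h5
      e2 := h6
      unt := h7
      b := b
      d := d
      b_eq := g1
      d_eq := g2
      sum := g3
      st := g4 }, rfl⟩
  · intro γ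
    show pv (T.pr (T.j (CP.iS (D0 φ z) γ))) = γ
    rw [T.pr_j, h1]
  · intro γ a
    show pv (T.pr (T.j (CP.iS (D0 φ z) γ) * a)) = γ * pv (T.pr a)
    rw [T.pr_l, h2]
  · intro a γ
    show pv (T.pr (a * T.j (CP.iS (D0 φ z) γ))) = pv (T.pr a) * γ
    rw [T.pr_r, h3]
  · intro a
    show T.mu (T.j (CP.iS (D0 φ z) (pv (T.pr a)))) = T.mu a
    rw [h4, T.orth]

end Pool.Agent.PFE.H94
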